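import Mathlib

/-!
MP_e25dcb (Q1 and Q2), negative answers.  There is an even meet involution system `(W, S)` of order
`16` with four generators `a, b, c, d` and `I = {a, c}` such that `W_I` is neither closed under
meets nor closed under joins of bounded sets in the weak order of `W`.
-/

set_option autoImplicit false

namespace Pool.Agent.Results.MP_e25dcb_al.OrderSixteen

section general

variable {W : Type} [Group W]

/-- Words in the letters `S` representing `w`. -/
def IsWord (S : Set W) (l : List W) (w : W) : Prop := (∀ s ∈ l, s ∈ S) ∧ l.prod = w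

/-- The word length with respect to `S`. -/
noncomputable def len (S : Set W) (w : W) : ℕ := sInf {n | ∃ l, IsWord S l w ∧ l.length = n}

/-- Reduced words for `w`. -/
def IsReduced (S : Set W) (l : List W) (w : W) : Prop := IsWord S l w ∧ l.length = len S w

/-- The (right) weak order: some reduced word for `u` is an initial segment of some reduced word
for `v`. -/
def wle (S : Set W) (u v : W) : Prop := ∃ l l' : List W, IsReduced S l u ∧ IsReduced S (l ++ l') v

/-- `m` is the greatest lower bound of `X` in the weak order. -/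
def IsMeet (S : Set W) (X : Set W) (m : W) : Prop :=
  (∀ x ∈ X, wle S m x) ∧ ∀ y, (∀ x ∈ X, wle S y x) → wle S y m

/-- `j` is the least upper bound of `X` in the weak order. -/
def IsJoin (S : Set W) (X : Set W) (j : W) : Prop :=
  (∀ x ∈ X, wle S x j) ∧ ∀ y, (∀ x ∈ X, wle S x y) → wle S j y

/-- Even meet involution systems: `S` is a finite generating set of involutions, there is a sign
character, and every nonempty subset has a greatest lower bound in the weak order. -/
structure IsEMIS (S : Set W) : Prop where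
  finite : S.Finite
  generates : Subgroup.closure S = ⊤
  involution : ∀ s ∈ S, s ≠ 1 ∧ s * s = 1
  sign : ∃ ε : W →* ℤˣ, ∀ s ∈ S, ε s = -1
  meet : ∀ X : Set W, X.Nonempty → ∃ m, IsMeet S X m

lemma len_le {S : Set W} {l : List W} {w : W} (h : IsWord S l w) : len S w ≤ l.length :=
  Nat.sInf_le ⟨l, h, rfl⟩

lemma exists_reduced {S : Set W} {w : W} (h : ∃ l, IsWord S l w) : ∃ l, IsReduced S l w := by
  obtain ⟨l, hl⟩ := h
  obtain ⟨l', hl', hlen⟩ := Nat.sInf_mem (s := {n | ∃ l, IsWord S l w ∧ l.length = n})
    ⟨l.length, l, hl, rfl⟩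
  exact ⟨l', hl', hlen⟩

lemma IsWord.append {S : Set W} {l l' : List W} {w w' : W} (h : IsWord S l w)
    (h' : IsWord S l' w') : IsWord S (l ++ l') (w * w') := by
  refine ⟨?_, ?_⟩
  · intro s hs
    rcases List.mem_append.mp hs with hs | hs
    · exact h.1 s hs
    · exact h'.1 s hs
  · rw [List.prod_append, h.2, h'.2]

lemma wle_iff {S : Set W} (hS : ∀ w : W, ∃ l, IsWord S l w) (u v : W) :
    wle S u v ↔ len S u + len S (u⁻¹ * v) = len S v := by
  constructor
  · rintro ⟨l, l', ⟨h1, h2⟩, ⟨h3, h4⟩⟩
    have h5 : IsWord S l' (u⁻¹ * v) := by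
      refine ⟨fun s hs => h3.1 s (List.mem_append.mpr (Or.inr hs)), ?_⟩
      have := h3.2
      rw [List.prod_append, h1.2] at this
      rw [← this]; group
    have h6 := len_le h5
    rw [List.length_append] at h4
    obtain ⟨m, hm, hm'⟩ := exists_reduced (hS (u⁻¹ * v))
    have h7 : IsWord S (l ++ m) v := by
      have := h1.append hm
      rwa [mul_inv_cancel_left] at this
    have h8 := len_le h7
    rw [List.length_append] at h8
    omega
  · intro h
    obtain ⟨l, hl, hl'⟩ := exists_reduced (hS u)
    obtain ⟨m, hm, hm'⟩ := exists_reduced (hS (u⁻¹ * v))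
    refine ⟨l, m, ⟨hl, hl'⟩, ?_, ?_⟩
    · have := hl.append hm
      rwa [mul_inv_cancel_left] at this
    · rw [List.length_append, hl', hm', h]

end general

/-- The group of order 16: the cube `{0,1}^4` with the multiplication
`x y = x + σ_x(y)`, where `σ_x` exchanges the first two coordinates iff `x_c ≠ x_d` and the last two
coordinates iff `x_a ≠ x_b`. -/
@[ext] structure G where
  a : Bool
  b : Bool
  c : Bool
  d : Bool
deriving DecidableEq

instance : Mul G := ⟨fun x y => ⟨x.a ^^ (bif x.c ^^ x.d then y.b else y.a),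
  x.b ^^ (bif x.c ^^ x.d then y.a else y.b), x.c ^^ (bif x.a ^^ x.b then y.d else y.c),
  x.d ^^ (bif x.a ^^ x.b then y.c else y.d)⟩⟩
instance : One G := ⟨⟨false, false, false, false⟩⟩
instance : Inv G := ⟨fun x => ⟨bif x.c ^^ x.d then x.b else x.a, bif x.c ^^ x.d then x.a else x.b,
  bif x.a ^^ x.b then x.d else x.c, bif x.a ^^ x.b then x.c else x.d⟩⟩

/-- a checking principle -/
lemma forallG {P : G → Prop} (h : ∀ a b c d : Bool, P ⟨a, b, c, d⟩) : ∀ x : G, P x :=
  fun ⟨a, b, c, d⟩ => h a b c d

set_option maxRecDepth 100000 in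
lemma one_mul' : ∀ x : G, 1 * x = x := forallG (by decide)

set_option maxRecDepth 100000 in
lemma inv_mul' : ∀ x : G, x⁻¹ * x = 1 := forallG (by decide)

set_option maxRecDepth 1000000 in
lemma assoc_aux : ∀ a b c d a' b' c' d' a'' b'' c'' d'' : Bool,
    (⟨a, b, c, d⟩ * ⟨a', b', c', d'⟩ * ⟨a'', b'', c'', d''⟩ : G) =
      ⟨a, b, c, d⟩ * (⟨a', b', c', d'⟩ * ⟨a'', b'', c'', d''⟩) := by
  decide

lemma mul_assoc' (x y z : G) : x * y * z = x * (y * z) :=
  assoc_aux x.a x.b x.c x.d y.a y.b y.c y.d z.a z.b z.c z.d

instance : Group G := Group.ofLeftAxioms mul_assoc' one_mul' inv_mul'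

def ga : G := ⟨true, false, false, false⟩
def gb : G := ⟨false, true, false, false⟩
def gc : G := ⟨false, false, true, false⟩
def gd : G := ⟨false, false, false, true⟩

/-- the number of coordinates equal to one -/
def pc (x : G) : ℕ := x.a.toNat + x.b.toNat + x.c.toNat + x.d.toNat

/-- the generators -/
def S : Set G := {ga, gb, gc, gd}

lemma pc_mul_gen (x : G) {s : G} (hs : s ∈ S) : pc (x * s) ≤ pc x + 1 := by
  obtain ⟨a, b, c, d⟩ := x
  rcases hs with rfl | rfl | rfl | rfl <;> cases a <;> cases b <;> cases c <;> cases d <;> decide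

lemma pc_prod_le (l : List G) (h : ∀ s ∈ l, s ∈ S) : ∀ x : G, pc (x * l.prod) ≤ pc x + l.length := by
  induction l with
  | nil => intro x; simp
  | cons s l ih =>
    intro x
    have h1 := ih (fun t ht => h t (List.mem_cons_of_mem _ ht)) (x * s)
    have h2 := pc_mul_gen x (h s List.mem_cons_self)
    rw [List.prod_cons, ← mul_assoc, List.length_cons]
    omega

/-- a reduced word -/
def word (x : G) : List G :=
  bif x.a then (bif x.b then [ga, gb] else [ga]) ++
      (bif x.b then (bif x.c then (bif x.d then [gc, gd] else [gc]) else (bif x.d then [gd] else []))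
        else (bif x.c then (bif x.d then [gd, gc] else [gd]) else (bif x.d then [gc] else [])))
  else (bif x.b then [gb] else []) ++
      (bif x.b then (bif x.c then (bif x.d then [gd, gc] else [gd]) else (bif x.d then [gc] else []))
        else (bif x.c then (bif x.d then [gc, gd] else [gc]) else (bif x.d then [gd] else [])))

lemma word_prod : ∀ x : G, (word x).prod = x := by
  rintro ⟨a, b, c, d⟩
  cases a <;> cases b <;> cases c <;> cases d <;> rfl

lemma word_len : ∀ x : G, (word x).length = pc x := by
  rintro ⟨a, b, c, d⟩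
  cases a <;> cases b <;> cases c <;> cases d <;> rfl

lemma word_mem : ∀ x : G, ∀ s ∈ word x, s ∈ S := by
  have h : ∀ s, s ∈ ([ga, gb, gc, gd] : List G) → s ∈ S := by
    intro s hs
    simpa [S] using hs
  rintro ⟨a, b, c, d⟩ s hs
  apply h
  revert hs
  cases a <;> cases b <;> cases c <;> cases d <;> simp [word] <;> aesop

lemma isWord_word (x : G) : IsWord S (word x) x := ⟨word_mem x, word_prod x⟩

lemma len_eq (x : G) : len S x = pc x := by
  apply le_antisymm
  · rw [← word_len x]; exact len_le (isWord_word x)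
  · obtain ⟨l, hl, hl'⟩ := exists_reduced ⟨word x, isWord_word x⟩
    rw [← hl']
    have := pc_prod_le l hl.1 1
    rw [one_mul, hl.2] at this
    simpa [pc, show (1 : G) = ⟨false, false, false, false⟩ from rfl] using this

/-- the coordinatewise order -/
def sub (x y : G) : Prop :=
  (x.a = true → y.a = true) ∧ (x.b = true → y.b = true) ∧ (x.c = true → y.c = true) ∧
    (x.d = true → y.d = true)

lemma wle_iff_sub (x y : G) : wle S x y ↔ sub x y := by
  rw [wle_iff (fun w => ⟨word w, isWord_word w⟩), len_eq, len_eq, len_eq]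
  obtain ⟨a, b, c, d⟩ := x
  obtain ⟨a', b', c', d'⟩ := y
  unfold sub
  revert a b c d a' b' c' d'
  decide

lemma emis : IsEMIS S where
  finite := by simp [S]
  generates := by
    rw [eq_top_iff]
    intro x _
    rw [← word_prod x]
    exact Subgroup.list_prod_mem _ (fun s hs => Subgroup.subset_closure (word_mem x s hs))
  involution := by
    rintro s (rfl | rfl | rfl | rfl) <;> decide
  sign := by
    refine ⟨{ toFun := fun x => (bif x.a ^^ x.b ^^ x.c ^^ x.d then -1 else 1)
              map_one' := rfl
              map_mul' := ?_ }, ?_⟩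
    · rintro ⟨a, b, c, d⟩ ⟨a', b', c', d'⟩
      cases a <;> cases b <;> cases c <;> cases d <;> cases a' <;> cases b' <;> cases c' <;>
        cases d' <;> rfl
    · rintro s (rfl | rfl | rfl | rfl) <;> rfl
  meet := by
    classical
    intro X hX
    refine ⟨⟨decide (∀ x ∈ X, x.a = true), decide (∀ x ∈ X, x.b = true),
      decide (∀ x ∈ X, x.c = true), decide (∀ x ∈ X, x.d = true)⟩, ?_, ?_⟩
    · intro x hx
      rw [wle_iff_sub]
      refine ⟨fun h => ?_, fun h => ?_, fun h => ?_, fun h => ?_⟩ <;>
        exact (of_decide_eq_true h) x hx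
    · intro y hy
      rw [wle_iff_sub]
      refine ⟨fun h => decide_eq_true ?_, fun h => decide_eq_true ?_,
        fun h => decide_eq_true ?_, fun h => decide_eq_true ?_⟩ <;> intro x hx
      · exact ((wle_iff_sub y x).mp (hy x hx)).1 h
      · exact ((wle_iff_sub y x).mp (hy x hx)).2.1 h
      · exact ((wle_iff_sub y x).mp (hy x hx)).2.2.1 h
      · exact ((wle_iff_sub y x).mp (hy x hx)).2.2.2 h

/-- the subgroup generated by `a` and `c` -/
def H : Subgroup G where
  carrier := {x | ((x.a == x.d && x.b == x.c) || (x.b == x.d && (x.a != x.c))) = true}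
  one_mem' := rfl
  mul_mem' := by
    rintro ⟨a, b, c, d⟩ ⟨a', b', c', d'⟩
    cases a <;> cases b <;> cases c <;> cases d <;> cases a' <;> cases b' <;> cases c' <;>
        cases d' <;> intro h1 h2 <;> first | rfl | exact absurd h1 (by decide) |
          exact absurd h2 (by decide)
  inv_mem' := by
    rintro ⟨a, b, c, d⟩
    cases a <;> cases b <;> cases c <;> cases d <;> intro h1 <;> first | rfl |
      exact absurd h1 (by decide)

lemma mem_H (x : G) : x ∈ H ↔ ((x.a == x.d && x.b == x.c) || (x.b == x.d && (x.a != x.c))) = true :=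
  Iff.rfl

lemma closure_le : Subgroup.closure {ga, gc} ≤ H := by
  rw [Subgroup.closure_le]
  rintro s (rfl | rfl) <;> rfl

lemma ga_mem : ga ∈ Subgroup.closure ({ga, gc} : Set G) := Subgroup.subset_closure (Or.inl rfl)
lemma gc_mem : gc ∈ Subgroup.closure ({ga, gc} : Set G) := Subgroup.subset_closure (Or.inr rfl)

/-- Both questions have a negative answer: there are a finite even meet involution system `(W, S)`
with 16 elements and a subset `I ⊆ S` such that (Q1) some nonempty subset of `W_I` has its meet
outside `W_I` and (Q2) some bounded subset of `W_I` has its join outside `W_I`. -/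
theorem result : ∃ (W : Type) (_ : Group W) (S I : Set W), Nat.card W = 16 ∧ IsEMIS S ∧ I ⊆ S ∧
    (∃ X : Set W, X.Nonempty ∧ X ⊆ Subgroup.closure I ∧
      ∃ m, IsMeet S X m ∧ m ∉ Subgroup.closure I) ∧
    (∃ X : Set W, X ⊆ Subgroup.closure I ∧ (∃ y, ∀ x ∈ X, wle S x y) ∧
      ∃ j, IsJoin S X j ∧ j ∉ Subgroup.closure I) := by
  refine ⟨G, inferInstance, S, {ga, gc}, ?_, emis, ?_, ?_, ?_⟩
  · have e : G ≃ Bool × Bool × Bool × Bool :=
      { toFun := fun x => (x.a, x.b, x.c, x.d)
        invFun := fun y => ⟨y.1, y.2.1, y.2.2.1, y.2.2.2⟩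
        left_inv := fun _ => rfl
        right_inv := fun _ => rfl }
    rw [Nat.card_congr e]
    simp
  · rintro s (rfl | rfl)
    · exact Or.inl rfl
    · exact Or.inr (Or.inr (Or.inl rfl))
  · refine ⟨{ga * gc, gc * ga * gc}, ⟨_, Or.inl rfl⟩, ?_, gd, ⟨?_, ?_⟩, ?_⟩
    · rintro x (rfl | rfl)
      · exact mul_mem ga_mem gc_mem
      · exact mul_mem (mul_mem gc_mem ga_mem) gc_mem
    · rintro x (rfl | rfl) <;> rw [wle_iff_sub] <;> unfold sub <;> decide
    · intro y hy
      have h1 := (wle_iff_sub _ _).mp (hy _ (Or.inl rfl))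
      have h2 := (wle_iff_sub _ _).mp (hy _ (Or.inr rfl))
      rw [wle_iff_sub]
      clear hy
      revert h1 h2
      obtain ⟨a, b, c, d⟩ := y
      unfold sub
      revert a b c d
      decide
    · intro h
      have h' := (mem_H _).mp (closure_le h)
      revert h'
      decide
  · refine ⟨{ga, gc}, Subgroup.subset_closure, ⟨⟨true, true, true, true⟩, ?_⟩, ga * gd,
      ⟨?_, ?_⟩, ?_⟩
    · intro x _
      rw [wle_iff_sub]
      exact ⟨fun _ => rfl, fun _ => rfl, fun _ => rfl, fun _ => rfl⟩
    · rintro x (rfl | rfl) <;> rw [wle_iff_sub] <;> unfold sub <;> decide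
    · intro y hy
      have h1 := (wle_iff_sub _ _).mp (hy _ (Or.inl rfl))
      have h2 := (wle_iff_sub _ _).mp (hy _ (Or.inr rfl))
      rw [wle_iff_sub]
      clear hy
      revert h1 h2
      obtain ⟨a, b, c, d⟩ := y
      unfold sub
      revert a b c d
      decide
    · intro h
      have h' := (mem_H _).mp (closure_le h)
      revert h'
      decide

end Pool.Agent.Results.MP_e25dcb_al.OrderSixteen
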